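import Pool.Agent.H.MP_a8efab_gt.Main

namespace Pool.Agent.Results.MP_a8efab_gt.NoQ1

open Matrix MeasureTheory
open scoped ENNReal

abbrev V (n : ℕ) := Fin n → ℝ

abbrev Met (n : ℕ) := V n → Matrix (Fin n) (Fin n) ℝ

def ip {n : ℕ} (A : Matrix (Fin n) (Fin n) ℝ) (u v : V n) : ℝ := u ⬝ᵥ A *ᵥ v

def bv {n : ℕ} (i : Fin n) : V n := Pi.single i 1

noncomputable def chr {n : ℕ} (h : Met n) (x u v : V n) : V n :=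
  (h x)⁻¹ *ᵥ fun l => (1 / 2 : ℝ) *
    (lineDeriv ℝ (fun z => ip (h z) v (bv l)) x u + lineDeriv ℝ (fun z => ip (h z) u (bv l)) x v
      - lineDeriv ℝ (fun z => ip (h z) u v) x (bv l))

noncomputable def curv {n : ℕ} (h : Met n) (x X Y Z : V n) : V n :=
  lineDeriv ℝ (fun z => chr h z Y Z) x X - lineDeriv ℝ (fun z => chr h z X Z) x Y
    + chr h x X (chr h x Y Z) - chr h x Y (chr h x X Z)

def Complete {n : ℕ} (g : Met n) : Prop :=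
  ∀ x : ℕ → V n,
    (∀ ε : ℝ, 0 < ε → ∃ N : ℕ, ∀ k l : ℕ, N ≤ k → N ≤ l →
      ∃ c : ℝ → V n, ContDiff ℝ 1 c ∧ c 0 = x k ∧ c 1 = x l ∧
        ∫ r in (0 : ℝ)..1, √(ip (g (c r)) (deriv c r) (deriv c r)) < ε) →
    ∃ p : V n, Filter.Tendsto x Filter.atTop (nhds p)

def IsMetric {n : ℕ} (g : Met n) : Prop :=
  (∀ i j, ContDiff ℝ (⊤ : ℕ∞) (fun x => g x i j)) ∧ ∀ x, (g x).PosDef

noncomputable def Rm {n : ℕ} (g : Met n) (x : V n) (i j k l : Fin n) : ℝ :=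
  ip (g x) (curv g x (bv i) (bv j) (bv l)) (bv k)

noncomputable def Ric {n : ℕ} (g : Met n) (x : V n) (j l : Fin n) : ℝ :=
  ∑ i, ∑ k, (g x)⁻¹ i k * Rm g x i j k l

noncomputable def Scal {n : ℕ} (g : Met n) (x : V n) : ℝ :=
  ∑ j, ∑ l, (g x)⁻¹ j l * Ric g x j l

noncomputable def Plow {n : ℕ} (g : Met n) (x : V n) (i j k l : Fin n) : ℝ :=
  Rm g x i j k l + Ric g x j k * g x i l - Ric g x j l * g x i k - Ric g x i k * g x j l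
    + Ric g x i l * g x j k + 1 / 2 * Scal g x * (g x i k * g x j l - g x i l * g x j k)

noncomputable def Pup {n : ℕ} (g : Met n) (x : V n) (i j k l : Fin n) : ℝ :=
  ∑ a, ∑ b, ∑ c, ∑ d, (g x)⁻¹ i a * (g x)⁻¹ j b * (g x)⁻¹ k c * (g x)⁻¹ l d * Plow g x a b c d

noncomputable def L2 {n : ℕ} (g : Met n) (x : V n) : ℝ :=
  ∑ i, ∑ j, ∑ k, ∑ l, Pup g x i j k l * Rm g x i j k l

noncomputable def sphMeas (n : ℕ) : Measure (Metric.sphere (0 : EuclideanSpace ℝ (Fin n)) 1) :=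
  (volume : Measure (EuclideanSpace ℝ (Fin n))).toSphere

noncomputable def flux {n : ℕ} (g : Met n) (r : ℝ) : ℝ :=
  r ^ (n - 1) * ∫ θ, ∑ i, ∑ j, ∑ k, ∑ l, Pup g (r • θ.1.ofLp) i j k l *
    (lineDeriv ℝ (fun z => g z j k) (r • θ.1.ofLp) (bv l) * θ.1.ofLp i) ∂(sphMeas n)

def HasMass {n : ℕ} (g : Met n) (m : ℝ) : Prop :=
  Filter.Tendsto (fun r => ((n - 4).factorial : ℝ) /
    (2 * (n - 1).factorial * (sphMeas n).real Set.univ) * flux g r) Filter.atTop (nhds m)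

def AF {n : ℕ} (g : Met n) (τ : ℝ) : Prop :=
  ∃ C R : ℝ, ∀ x : V n, R ≤ √(x ⬝ᵥ x) → ∀ i j k l,
    |g x i j - (1 : Matrix (Fin n) (Fin n) ℝ) i j| ≤ C * √(x ⬝ᵥ x) ^ (-τ) ∧
    |lineDeriv ℝ (fun z => g z i j) x (bv k)| ≤ C * √(x ⬝ᵥ x) ^ (-τ - 1) ∧
    |lineDeriv ℝ (fun y => lineDeriv ℝ (fun z => g z i j) y (bv k)) x (bv l)|
      ≤ C * √(x ⬝ᵥ x) ^ (-τ - 2)

noncomputable def hess {n : ℕ} (g : Met n) (f : V n → ℝ) (x u v : V n) : ℝ :=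
  lineDeriv ℝ (fun z => lineDeriv ℝ f z v) x u - lineDeriv ℝ f x (chr g x u v)

def MinimalSphere {n : ℕ} (g : Met (n + 1)) (a : ℝ) : Prop :=
  ∀ x : V (n + 1), x ⬝ᵥ x = a → ∀ e : Fin n → V (n + 1), (∀ i, x ⬝ᵥ e i = 0) →
    (∀ i j, ip (g x) (e i) (e j) = if i = j then 1 else 0) →
    ∑ i, hess g (fun y => y ⬝ᵥ y) x (e i) (e i) = 0

noncomputable def jac {n : ℕ} (g : Met (n + 1)) (φ : V n → V (n + 1)) (u : V n) : ℝ :=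
  √(Matrix.of fun i j => ip (g (φ u)) (lineDeriv ℝ φ u (bv i)) (lineDeriv ℝ φ u (bv j))).det

noncomputable def area {n : ℕ} (g : Met (n + 1)) (M S : Set (V (n + 1))) : ℝ≥0∞ :=
  ⨅ (φ : ℕ → V n → V (n + 1)) (U : ℕ → Set (V n))
    (_ : ∀ k, IsOpen (U k) ∧ ContDiffOn ℝ 1 (φ k) (U k) ∧ Set.MapsTo (φ k) (U k) M)
    (_ : S ⊆ ⋃ k, φ k '' U k), ∑' k, ∫⁻ u in U k, ENNReal.ofReal (jac g (φ k) u)

theorem result : ∃ (g : Met 6) (a τ m : ℝ), 0 < a ∧ IsMetric g ∧ Complete g ∧ (6 - 4) / 3 < τ ∧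
    AF g τ ∧ IntegrableOn (fun x => L2 g x * √(g x).det) {x | a ≤ x ⬝ᵥ x} ∧
    (∀ x, a ≤ x ⬝ᵥ x → 0 ≤ L2 g x) ∧ MinimalSphere g a ∧
    (∀ S : Set (V 6), (∀ x : V 6, x ⬝ᵥ x = a → ∃ t : ℝ, 1 ≤ t ∧ t • x ∈ S) →
      area g {x | a ≤ x ⬝ᵥ x} {x | x ⬝ᵥ x = a} ≤ area g {x | a ≤ x ⬝ᵥ x} S) ∧
    0 < area g {x | a ≤ x ⬝ᵥ x} {x | x ⬝ᵥ x = a} ∧
    area g {x | a ≤ x ⬝ᵥ x} {x | x ⬝ᵥ x = a} < ⊤ ∧ HasMass g m ∧ m < 0 :=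
  Pool.Agent.H.MP_a8efab_gt.main

end Pool.Agent.Results.MP_a8efab_gt.NoQ1
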